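import Mathlib

/-!
# The sum over the primes, left of the edge (MP_eea520_nt, theorem HALF): partial summation

If the sums of `b k`, `k ≤ n`, are at most `c √n + C₀`, then the Dirichlet series of `b` is holomorphic for
`Re s > 1/2`, with a bound near `1/2` on the real axis.
-/

set_option autoImplicit false

namespace Pool.Agent.EEH56

open Complex Filter Topology MeasureTheory Set Metric

/-- The summatory function. -/
noncomputable def SS (b : ℕ → ℂ) (t : ℝ) : ℂ := ∑ k ∈ Finset.Icc 1 ⌊t⌋₊, b k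

/-- The Dirichlet series, by partial summation. -/
noncomputable def GG (b : ℕ → ℂ) (s : ℂ) : ℂ :=
  s * ∫ t in Ioi (1 : ℝ), SS b t * (t : ℂ) ^ (-(s + 1))

theorem SS_lt {b : ℕ → ℂ} {t : ℝ} (h1 : t < 1) : SS b t = 0 := by
  have h2 : ⌊t⌋₊ = 0 := Nat.floor_eq_zero.2 h1
  rw [SS, h2]
  rfl

theorem SS_one {b : ℕ → ℂ} (hb : b 1 = 0) : SS b 1 = 0 := by
  rw [SS, Nat.floor_one, Finset.Icc_self, Finset.sum_singleton, hb]

theorem SS_bound {b : ℕ → ℂ} {c C₀ : ℝ} (hc : 0 ≤ c)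
    (hS : ∀ n : ℕ, ‖∑ k ∈ Finset.Icc 1 n, b k‖ ≤ c * √n + C₀) {t : ℝ} (ht : 0 ≤ t) :
    ‖SS b t‖ ≤ c * √t + C₀ := by
  refine (hS ⌊t⌋₊).trans ?_
  have h1 : √(⌊t⌋₊ : ℝ) ≤ √t := Real.sqrt_le_sqrt (Nat.floor_le ht)
  nlinarith [mul_le_mul_of_nonneg_left h1 hc]

theorem GG_eq {b : ℕ → ℂ} (hb : b 1 = 0) (s : ℂ) : GG b s = s * mellin (SS b) (-s) := by
  rw [GG, mellin]
  congr 1
  symm
  have h0 : ∫ t in Ioi (0 : ℝ), (t : ℂ) ^ (-s - 1) • SS b t =
      ∫ t in Ioi (1 : ℝ), (t : ℂ) ^ (-s - 1) • SS b t := by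
    refine setIntegral_eq_of_subset_of_forall_sdiff_eq_zero measurableSet_Ioi
      (Ioi_subset_Ioi zero_le_one) ?_
    intro t ht
    have h1 : t ≤ 1 := not_lt.1 ht.2
    rcases lt_or_eq_of_le h1 with h2 | h2
    · rw [SS_lt h2, smul_zero]
    · rw [h2, SS_one hb, smul_zero]
  rw [h0]
  refine setIntegral_congr_fun measurableSet_Ioi fun t _ => ?_
  show (t : ℂ) ^ (-s - 1) * SS b t = SS b t * (t : ℂ) ^ (-(s + 1))
  rw [mul_comm, show -s - 1 = -(s + 1) by ring]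

theorem GG_diff {b : ℕ → ℂ} (hb : b 1 = 0) {c C₀ : ℝ} (hc : 0 ≤ c)
    (hS : ∀ n : ℕ, ‖∑ k ∈ Finset.Icc 1 n, b k‖ ≤ c * √n + C₀) {s : ℂ} (hs : 1 / 2 < s.re) :
    DifferentiableAt ℂ (GG b) s := by
  have h0 : GG b = fun s => s * mellin (SS b) (-s) := funext fun s => GG_eq hb s
  rw [h0]
  refine differentiableAt_id.mul ?_
  have h1 : DifferentiableAt ℂ (mellin (SS b)) (-s) := by
    refine mellin_differentiableAt_of_isBigO_rpow (a := -(1 / 2)) (b := -s.re - 1) ?_ ?_ ?_ ?_ ?_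
    · have h2 := locallyIntegrableOn_mul_sum_Icc (𝕜 := ℂ) b (m := 1) (a := 0) le_rfl
        (g := fun _ => (1 : ℂ)) (locallyIntegrableOn_const (1 : ℂ))
      have h3 : (fun t : ℝ => (1 : ℂ) * ∑ k ∈ Finset.Icc 1 ⌊t⌋₊, b k) = SS b := by
        funext t
        rw [one_mul, SS]
      rw [h3] at h2
      exact h2.mono_set Ioi_subset_Ici_self
    · refine Asymptotics.IsBigO.of_bound (c + |C₀|) ?_
      filter_upwards [eventually_ge_atTop (1 : ℝ)] with t ht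
      have h4 := SS_bound hc hS (zero_le_one.trans ht)
      rw [neg_neg, Real.norm_of_nonneg (Real.rpow_nonneg (zero_le_one.trans ht) _),
        ← Real.sqrt_eq_rpow]
      have h5 : (1 : ℝ) ≤ √t := Real.one_le_sqrt.2 ht
      have h6 : C₀ ≤ |C₀| := le_abs_self _
      nlinarith [abs_nonneg C₀]
    · rw [Complex.neg_re]
      linarith
    · refine (Asymptotics.isBigO_zero _ _).congr' ?_ EventuallyEq.rfl
      filter_upwards [mem_nhdsWithin_of_mem_nhds (Iio_mem_nhds (zero_lt_one (α := ℝ)))] with t ht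
      rw [SS_lt ht]
    · rw [Complex.neg_re]
      linarith
  exact h1.comp s differentiableAt_id.neg

theorem GG_bound {b : ℕ → ℂ} {c C₀ : ℝ} (hc : 0 ≤ c)
    (hS : ∀ n : ℕ, ‖∑ k ∈ Finset.Icc 1 n, b k‖ ≤ c * √n + C₀) {x : ℝ} (hx : 1 / 2 < x) :
    ‖GG b (x : ℂ)‖ ≤ c / 2 / (x - 1 / 2) + (c + C₀) := by
  have hx0 : 0 < x := by linarith
  have hi1 : IntegrableOn (fun t : ℝ => t ^ (-x - 1 / 2)) (Ioi 1) :=
    integrableOn_Ioi_rpow_of_lt (by linarith) one_pos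
  have hi2 : IntegrableOn (fun t : ℝ => t ^ (-x - 1)) (Ioi 1) :=
    integrableOn_Ioi_rpow_of_lt (by linarith) one_pos
  have h1 : ‖∫ t in Ioi (1 : ℝ), SS b t * (t : ℂ) ^ (-((x : ℂ) + 1))‖ ≤
      ∫ t in Ioi (1 : ℝ), (c * t ^ (-x - 1 / 2) + C₀ * t ^ (-x - 1)) := by
    refine norm_integral_le_of_norm_le ((hi1.const_mul c).add (hi2.const_mul C₀)) ?_
    refine (ae_restrict_iff' measurableSet_Ioi).2 (Eventually.of_forall fun t ht => ?_)
    have ht1 : (1 : ℝ) < t := ht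
    have ht0 : (0 : ℝ) < t := by linarith
    rw [norm_mul, Complex.norm_cpow_eq_rpow_re_of_pos ht0]
    have h2 : (-((x : ℂ) + 1)).re = -x - 1 := by
      simp
      ring
    rw [h2]
    have h3 := SS_bound hc hS ht0.le
    have h4 : (0 : ℝ) ≤ t ^ (-x - 1) := Real.rpow_nonneg ht0.le _
    have h5 : √t * t ^ (-x - 1) = t ^ (-x - 1 / 2) := by
      rw [Real.sqrt_eq_rpow, ← Real.rpow_add ht0]
      congr 1
      ring
    calc ‖SS b t‖ * t ^ (-x - 1) ≤ (c * √t + C₀) * t ^ (-x - 1) :=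
          mul_le_mul_of_nonneg_right h3 h4
      _ = c * (√t * t ^ (-x - 1)) + C₀ * t ^ (-x - 1) := by ring
      _ = c * t ^ (-x - 1 / 2) + C₀ * t ^ (-x - 1) := by rw [h5]
  have h6 : ∫ t in Ioi (1 : ℝ), (c * t ^ (-x - 1 / 2) + C₀ * t ^ (-x - 1)) =
      c / (x - 1 / 2) + C₀ / x := by
    rw [integral_add (hi1.const_mul c) (hi2.const_mul C₀), integral_const_mul, integral_const_mul,
      integral_Ioi_rpow_of_lt (by linarith) one_pos, integral_Ioi_rpow_of_lt (by linarith) one_pos,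
      Real.one_rpow, Real.one_rpow]
    have h7 : x - 1 / 2 ≠ 0 := by linarith
    have h8 : -x - 1 / 2 + 1 = -(x - 1 / 2) := by ring
    have h9 : -x - 1 + 1 = -x := by ring
    rw [h8, h9, neg_div_neg_eq, neg_div_neg_eq]
    ring
  rw [h6] at h1
  rw [GG, norm_mul, Complex.norm_real, Real.norm_of_nonneg hx0.le]
  refine (mul_le_mul_of_nonneg_left h1 hx0.le).trans (le_of_eq ?_)
  have h7 : x - 1 / 2 ≠ 0 := by
    intro h
    linarith
  have h8 : x * (c / (x - 1 / 2)) = (x - 1 / 2) * (c / (x - 1 / 2)) + 1 / 2 * (c / (x - 1 / 2)) := by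
    ring
  rw [mul_add, h8, mul_div_cancel₀ _ h7, mul_div_cancel₀ _ hx0.ne']
  ring

/-- The Dirichlet series for `Re s > 1`. -/
theorem GG_eq_LSeries {b : ℕ → ℂ} {c C₀ : ℝ}
    (hS : ∀ n : ℕ, ‖∑ k ∈ Finset.Icc 1 n, b k‖ ≤ c * √n + C₀) {s : ℂ} (hs : 1 / 2 < s.re)
    (hb : LSeriesSummable b s) : LSeries b s = GG b s := by
  refine LSeries_eq_mul_integral b (r := 1 / 2) (by norm_num) hs hb ?_
  refine Asymptotics.IsBigO.of_bound (c + |C₀|) ?_
  filter_upwards [eventually_ge_atTop 1] with n hn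
  have h1 := hS n
  rw [Real.norm_of_nonneg (Real.rpow_nonneg (Nat.cast_nonneg n) _), ← Real.sqrt_eq_rpow]
  have h5 : (1 : ℝ) ≤ √(n : ℝ) := Real.one_le_sqrt.2 (by exact_mod_cast hn)
  have h6 : C₀ ≤ |C₀| := le_abs_self _
  nlinarith [abs_nonneg C₀]

theorem exists_bound {b : ℕ → ℂ} {c : ℝ} (hc : 0 ≤ c)
    (hS : ∀ᶠ n : ℕ in atTop, ‖∑ k ∈ Finset.Icc 1 n, b k‖ ≤ c * √n) :
    ∃ C₀ : ℝ, 0 ≤ C₀ ∧ ∀ n : ℕ, ‖∑ k ∈ Finset.Icc 1 n, b k‖ ≤ c * √n + C₀ := by
  obtain ⟨N, hN⟩ := eventually_atTop.1 hS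
  refine ⟨∑ n ∈ Finset.range N, ‖∑ k ∈ Finset.Icc 1 n, b k‖,
    Finset.sum_nonneg fun _ _ => norm_nonneg _, fun n => ?_⟩
  have h0 : 0 ≤ c * √(n : ℝ) := mul_nonneg hc (Real.sqrt_nonneg _)
  rcases lt_or_ge n N with h | h
  · have h1 := Finset.single_le_sum (f := fun n => ‖∑ k ∈ Finset.Icc 1 n, b k‖)
      (fun i _ => norm_nonneg _) (Finset.mem_range.2 h)
    linarith
  · have h1 : 0 ≤ ∑ n ∈ Finset.range N, ‖∑ k ∈ Finset.Icc 1 n, b k‖ :=
      Finset.sum_nonneg fun _ _ => norm_nonneg _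
    linarith [hN n h]

theorem ball_re {s : ℂ} (hs : s ∈ ball (2 : ℂ) (3 / 2)) : 1 / 2 < s.re := by
  have h1 : ‖s - 2‖ < 3 / 2 := by
    rw [← dist_eq_norm]
    exact hs
  have h2 : |(s - 2).re| ≤ ‖s - 2‖ := Complex.abs_re_le_norm _
  have h3 : (s - 2).re = s.re - 2 := by simp
  rw [h3] at h2
  have h4 := neg_abs_le (s.re - 2)
  linarith

theorem real_ball {x : ℝ} (h1 : 1 / 2 < x) (h2 : x < 7 / 2) : (x : ℂ) ∈ ball (2 : ℂ) (3 / 2) := by
  rw [mem_ball, dist_eq_norm]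
  have h3 : (x : ℂ) - 2 = ((x - 2 : ℝ) : ℂ) := by push_cast; ring
  rw [h3, Complex.norm_real, Real.norm_eq_abs, abs_lt]
  constructor <;> linarith

/-- **Partial summation.** -/
theorem half_sum {a : ℕ → ℂ} {B : ℝ} (ha : ∀ n, ‖a n‖ ≤ B) {c : ℝ} (hc : 0 ≤ c)
    (hS : ∀ᶠ n : ℕ in atTop, ‖∑ k ∈ Finset.Icc 1 n, LSeries.logMul a k‖ ≤ c * √n) :
    ∃ F : ℂ → ℂ, DifferentiableOn ℂ F (ball 2 (3 / 2)) ∧
      (∀ s ∈ ball (2 : ℂ) (3 / 2), 1 < s.re → F s = LSeries a s) ∧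
      ∃ K : ℝ, ∀ x : ℝ, 1 / 2 < x → x ≤ 1 →
        ‖F (x : ℂ)‖ ≤ c / 2 * Real.log (1 / (x - 1 / 2)) + K := by
  obtain ⟨C₀, hC, hS'⟩ := exists_bound hc hS
  have hb1 : LSeries.logMul a 1 = 0 := by
    simp [LSeries.logMul]
  have habs : LSeries.abscissaOfAbsConv a ≤ 1 :=
    LSeries.abscissaOfAbsConv_le_of_le_const ⟨B, fun n _ => ha n⟩
  have habs' : ∀ s : ℂ, 1 < s.re → LSeries.abscissaOfAbsConv a < s.re := fun s hs =>
    habs.trans_lt (by exact_mod_cast hs)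
  have hGd : DifferentiableOn ℂ (fun s => -GG (LSeries.logMul a) s) (ball 2 (3 / 2)) :=
    fun s hs => ((GG_diff hb1 hc hS' (ball_re hs)).neg).differentiableWithinAt
  obtain ⟨F0, hF0⟩ := hGd.isExactOn_ball
  have hF0' : ∀ z ∈ ball (2 : ℂ) (3 / 2), HasDerivAt F0 (-GG (LSeries.logMul a) z) z := hF0
  have h2b : (2 : ℂ) ∈ ball (2 : ℂ) (3 / 2) := mem_ball_self (by norm_num)
  let F : ℂ → ℂ := fun s => F0 s - F0 2 + LSeries a 2
  have hF : ∀ z ∈ ball (2 : ℂ) (3 / 2), HasDerivAt F (-GG (LSeries.logMul a) z) z := fun z hz =>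
    ((hF0' z hz).sub_const _).add_const _
  refine ⟨F, fun z hz => (hF z hz).differentiableAt.differentiableWithinAt, ?_, ?_⟩
  · intro s hs hs1
    have hV : IsOpen (ball (2 : ℂ) (3 / 2) ∩ {s : ℂ | 1 < s.re}) :=
      isOpen_ball.inter (isOpen_lt continuous_const Complex.continuous_re)
    have hVc : IsPreconnected (ball (2 : ℂ) (3 / 2) ∩ {s : ℂ | 1 < s.re}) :=
      ((convex_ball _ _).inter (convex_halfSpace_re_gt 1)).isPreconnected
    have hd : ∀ z ∈ ball (2 : ℂ) (3 / 2) ∩ {s : ℂ | 1 < s.re},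
        HasDerivAt (fun s => F s - LSeries a s) 0 z := by
      intro z hz
      have h1 := (hF z hz.1).sub (LSeries_hasDerivAt (habs' z hz.2))
      have h2 : LSeries (LSeries.logMul a) z = GG (LSeries.logMul a) z :=
        GG_eq_LSeries hS' (ball_re hz.1) (LSeriesSummable_logMul_of_lt_re (habs' z hz.2))
      rw [h2, sub_self] at h1
      exact h1
    have h3 := hV.is_const_of_deriv_eq_zero hVc
      (fun z hz => (hd z hz).differentiableAt.differentiableWithinAt)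
      (fun z hz => (hd z hz).deriv) ⟨hs, hs1⟩ ⟨h2b, by simp⟩
    have h4 : F 2 - LSeries a 2 = 0 := by
      show F0 2 - F0 2 + LSeries a 2 - LSeries a 2 = 0
      ring
    have h5 : F s - LSeries a s = 0 := h3.trans h4
    exact sub_eq_zero.1 h5
  · refine ⟨‖F 1‖ + (c + C₀), fun x hx hx1 => ?_⟩
    have hg : ∀ u ∈ Icc (0 : ℝ) (1 - x), HasDerivAt (fun u : ℝ => F ((1 - u : ℝ) : ℂ))
        (GG (LSeries.logMul a) ((1 - u : ℝ) : ℂ)) u := by
      intro u hu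
      have h1 := hF _ (real_ball (x := 1 - u) (by linarith [hu.2]) (by linarith [hu.1]))
      have h2 : HasDerivAt (fun u : ℝ => ((1 - u : ℝ) : ℂ)) (-1) u := by
        have h3 := ((hasDerivAt_id u).const_sub 1).ofReal_comp
        simpa using h3
      have h4 : HasDerivAt (F ∘ fun u : ℝ => ((1 - u : ℝ) : ℂ))
          (-GG (LSeries.logMul a) ((1 - u : ℝ) : ℂ) * (-1)) u := h1.comp u h2
      rw [neg_mul_neg, mul_one] at h4
      exact h4
    have hB : ∀ u ∈ Icc (0 : ℝ) (1 - x), HasDerivAt (fun u : ℝ => ‖F 1‖ + ((c + C₀) * u -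
        c / 2 * Real.log (1 - 2 * u))) (c / 2 / ((1 - u) - 1 / 2) + (c + C₀)) u := by
      intro u hu
      have h0 : (1 : ℝ) - 2 * u ≠ 0 := by
        have := hu.2
        intro h
        linarith
      have h1 : HasDerivAt (fun u : ℝ => 1 - 2 * u) (-2) u := by
        simpa using ((hasDerivAt_id u).const_mul 2).const_sub 1
      have h2 := (h1.log h0).const_mul (c / 2)
      have h3 := (((hasDerivAt_id u).const_mul (c + C₀)).sub h2).const_add ‖F 1‖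
      refine h3.congr_deriv ?_
      have h4 : (1 - u) - 1 / 2 = (1 - 2 * u) / 2 := by ring
      rw [h4]
      field_simp
      ring
    have h1 := image_norm_le_of_norm_deriv_right_le_deriv_boundary'
      (f := fun u : ℝ => F ((1 - u : ℝ) : ℂ)) (f' := fun u => GG (LSeries.logMul a) ((1 - u : ℝ) : ℂ))
      (a := 0) (b := 1 - x)
      (B := fun u : ℝ => ‖F 1‖ + ((c + C₀) * u - c / 2 * Real.log (1 - 2 * u)))
      (B' := fun u => c / 2 / ((1 - u) - 1 / 2) + (c + C₀))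
      (fun u hu => (hg u hu).continuousAt.continuousWithinAt)
      (fun u hu => (hg u (Ico_subset_Icc_self hu)).hasDerivWithinAt)
      (by simp)
      (fun u hu => (hB u hu).continuousAt.continuousWithinAt)
      (fun u hu => (hB u (Ico_subset_Icc_self hu)).hasDerivWithinAt)
      (fun u hu => GG_bound hc hS' (by linarith [hu.2]))
      (show 1 - x ∈ Icc (0 : ℝ) (1 - x) from ⟨by linarith, le_rfl⟩)
    have h2 : ((1 - (1 - x) : ℝ) : ℂ) = (x : ℂ) := by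
      congr 1
      ring
    have h3 : ‖F (x : ℂ)‖ ≤ ‖F 1‖ + ((c + C₀) * (1 - x) - c / 2 * Real.log (1 - 2 * (1 - x))) := by
      rw [← h2]
      exact h1
    have hy : 0 < x - 1 / 2 := by linarith
    have h4 : Real.log (1 - 2 * (1 - x)) = Real.log 2 + Real.log (x - 1 / 2) := by
      rw [← Real.log_mul (by norm_num) hy.ne']
      congr 1
      ring
    have h5 : Real.log (1 / (x - 1 / 2)) = -Real.log (x - 1 / 2) := by
      rw [one_div, Real.log_inv]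
    have h6 : 0 ≤ Real.log 2 := Real.log_nonneg (by norm_num)
    rw [h4] at h3
    rw [h5]
    have h7 : (c + C₀) * (1 - x) ≤ c + C₀ := by nlinarith
    nlinarith

end Pool.Agent.EEH56
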